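import Pool.Agent.Helper79.Weiss.Names

/-!
# Packet W-J1 of MP_6b0aee_an: the Misiurewicz measure
-/

set_option autoImplicit false

open Set Filter Topology MeasureTheory Pool.Agent.Helper38.Weiss
open scoped ENNReal BoundedContinuousFunction

namespace Pool.Agent.Helper79.Weiss

variable {X : Type*}

/-- the empirical measure of the orbits of length `T` starting in `E` -/
noncomputable def emp [MeasurableSpace X] (E : Finset X) (F : X → X) (T : ℕ) : Measure X :=
  ((E.card : ℝ≥0∞) * T)⁻¹ • ∑ x ∈ E, ∑ t ∈ Finset.range T, Measure.dirac (F^[t] x)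

theorem emp_prob [MeasurableSpace X] {E : Finset X} (hE : E.Nonempty) (F : X → X) {T : ℕ}
    (hT : 0 < T) : IsProbabilityMeasure (emp E F T) := by
  constructor
  unfold emp
  rw [Measure.smul_apply, Measure.finsetSum_apply]
  simp only [Measure.finsetSum_apply, measure_univ, Finset.sum_const, Finset.card_range,
    smul_eq_mul, nsmul_eq_mul, mul_one]
  refine ENNReal.inv_mul_cancel ?_ ?_
  · have h1 : (E.card : ℝ≥0∞) ≠ 0 := by exact_mod_cast hE.card_pos.ne'
    have h2 : (T : ℝ≥0∞) ≠ 0 := by exact_mod_cast hT.ne'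
    exact mul_ne_zero h1 h2
  · exact ENNReal.mul_ne_top (ENNReal.natCast_ne_top _) (ENNReal.natCast_ne_top _)

open Classical in
theorem emp_apply [MeasurableSpace X] (E : Finset X) (F : X → X) (T : ℕ) {A : Set X}
    (hA : MeasurableSet A) : (emp E F T A).toReal =
      (1 / (T : ℝ)) * ∑ t ∈ Finset.range T,
        ((E.filter (fun x => F^[t] x ∈ A)).card : ℝ) / E.card := by
  unfold emp
  rw [Measure.smul_apply, Measure.finsetSum_apply]
  simp only [Measure.finsetSum_apply, smul_eq_mul]
  have h1 : ∀ x t, Measure.dirac (F^[t] x) A = if F^[t] x ∈ A then (1 : ℝ≥0∞) else 0 := by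
    intro x t
    rw [Measure.dirac_apply' _ hA, indicator_apply]
    rfl
  simp only [h1]
  rw [Finset.sum_comm]
  have h2 : ∀ t, ∑ x ∈ E, (if F^[t] x ∈ A then (1 : ℝ≥0∞) else 0) =
      ((E.filter (fun x => F^[t] x ∈ A)).card : ℝ≥0∞) := by
    intro t
    rw [← Finset.sum_filter, Finset.sum_const, nsmul_eq_mul, mul_one]
  simp only [h2]
  rw [ENNReal.toReal_mul, ENNReal.toReal_inv, ENNReal.toReal_mul, ENNReal.toReal_natCast,
    ENNReal.toReal_natCast, ENNReal.toReal_sum (fun _ _ => ENNReal.natCast_ne_top _)]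
  simp only [ENNReal.toReal_natCast]
  rw [← Finset.sum_div, mul_inv, one_div]
  ring

theorem emp_integral [MetricSpace X] [MeasurableSpace X] [BorelSpace X] (E : Finset X)
    (F : X → X) (T : ℕ) (f : X →ᵇ ℝ) : ∫ x, f x ∂(emp E F T) =
      ((E.card : ℝ) * T)⁻¹ * ∑ x ∈ E, ∑ t ∈ Finset.range T, f (F^[t] x) := by
  unfold emp
  rw [integral_smul_measure, integral_finsetSum_measure (fun x _ => by
    exact f.integrable _)]
  have h1 : ∀ x, ∫ y, f y ∂(∑ t ∈ Finset.range T, Measure.dirac (F^[t] x)) =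
      ∑ t ∈ Finset.range T, f (F^[t] x) := by
    intro x
    rw [integral_finsetSum_measure (fun t _ => f.integrable _)]
    exact Finset.sum_congr rfl fun t _ => integral_dirac _ _
  simp only [h1]
  rw [ENNReal.toReal_inv, ENNReal.toReal_mul, ENNReal.toReal_natCast, ENNReal.toReal_natCast,
    smul_eq_mul]

theorem emp_inv [MetricSpace X] [MeasurableSpace X] [BorelSpace X] {E : Finset X}
    (hE : E.Nonempty) (F : X → X) (hF : Continuous F) {T : ℕ} (hT : 0 < T) (f : X →ᵇ ℝ) :
    |∫ x, f.compContinuous ⟨F, hF⟩ x ∂(emp E F T) - ∫ x, f x ∂(emp E F T)| ≤ 2 * ‖f‖ / T := by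
  rw [emp_integral, emp_integral, ← mul_sub, ← Finset.sum_sub_distrib]
  have h1 : ∀ x, ∑ t ∈ Finset.range T, f.compContinuous ⟨F, hF⟩ (F^[t] x) -
      ∑ t ∈ Finset.range T, f (F^[t] x) = f (F^[T] x) - f x := by
    intro x
    rw [← Finset.sum_sub_distrib]
    have h2 : ∀ t, f.compContinuous ⟨F, hF⟩ (F^[t] x) = f (F^[t + 1] x) := by
      intro t
      rw [Function.iterate_succ_apply']
      rfl
    simp only [h2]
    exact Finset.sum_range_sub (fun t => f (F^[t] x)) T
  simp only [h1]
  have hc : (0 : ℝ) < E.card := by exact_mod_cast hE.card_pos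
  have hT' : (0 : ℝ) < T := by exact_mod_cast hT
  have h3 : |∑ x ∈ E, (f (F^[T] x) - f x)| ≤ E.card * (2 * ‖f‖) := by
    calc |∑ x ∈ E, (f (F^[T] x) - f x)| ≤ ∑ x ∈ E, |f (F^[T] x) - f x| :=
          Finset.abs_sum_le_sum_abs _ _
      _ ≤ ∑ _x ∈ E, 2 * ‖f‖ := by
          refine Finset.sum_le_sum fun x _ => ?_
          have h4 := f.norm_coe_le_norm (F^[T] x)
          have h5 := f.norm_coe_le_norm x
          rw [Real.norm_eq_abs] at h4 h5
          exact (abs_sub _ _).trans (by linarith)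
      _ = E.card * (2 * ‖f‖) := by rw [Finset.sum_const, nsmul_eq_mul]
  rw [abs_mul, abs_of_pos (inv_pos.2 (mul_pos hc hT'))]
  calc ((E.card : ℝ) * T)⁻¹ * |∑ x ∈ E, (f (F^[T] x) - f x)|
      ≤ ((E.card : ℝ) * T)⁻¹ * (E.card * (2 * ‖f‖)) := by gcongr
    _ = 2 * ‖f‖ / T := by field_simp

theorem card_filter_congr' (E : Finset X) (p q : X → Prop) (ip : DecidablePred p)
    (iq : DecidablePred q) (h : ∀ x, p x ↔ q x) :
    (@Finset.filter X p ip E).card = (@Finset.filter X q iq E).card := by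
  have hpq : p = q := funext fun x => propext (h x)
  subst hpq
  congr

/-- the laws of the empirical measures -/
theorem law_emp [MetricSpace X] [MeasurableSpace X] [BorelSpace X] (E : Finset X)
    (F : X → X) (hF : Continuous F) (T : ℕ) {n : ℕ} (P : X → Fin n) (hP : Measurable P) (L : ℕ) :
    law (emp E F T) F P L = fun w => (1 / (T : ℝ)) * ∑ t ∈ Finset.range T,
      dst E (blk P F t L) w := by
  classical
  funext w
  unfold law
  have hA : MeasurableSet {x | ∀ s : Fin L, P (F^[s] x) = w s} := by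
    have : {x | ∀ s : Fin L, P (F^[s] x) = w s} = ⋂ s : Fin L, {x | P (F^[s] x) = w s} := by
      ext x; simp
    rw [this]
    refine MeasurableSet.iInter fun s => ?_
    exact (hP.comp (hF.iterate s).measurable) (measurableSet_singleton (w s))
  rw [emp_apply _ _ _ hA]
  congr 1
  refine Finset.sum_congr rfl fun t _ => ?_
  have h : ∀ x, F^[t] x ∈ {x | ∀ s : Fin L, P (F^[s] x) = w s} ↔ blk P F t L x = w := by
    intro x
    constructor
    · intro h
      funext s
      have h1 := h s
      rw [← Function.iterate_add_apply, add_comm] at h1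
      exact h1
    · intro h s
      have h1 := congrFun h s
      rw [← Function.iterate_add_apply, add_comm]
      exact h1
  unfold dst
  congr 2
  exact card_filter_congr' _ _ _ _ _ h

theorem misiurewicz {X : Type*} [MetricSpace X] [CompactSpace X] [MeasurableSpace X]
    [BorelSpace X] (F : X → X) (hFc : Continuous F) (ε₁ : ℝ) (hε₁ : 0 < ε₁) (h₁ : ℝ)
    (hsep : ∀ T : ℕ, 0 < T → ∃ E : Finset X, (∀ x ∈ E, ∀ y ∈ E, x ≠ y →
      ∃ t < T, ε₁ ≤ dist (F^[t] x) (F^[t] y)) ∧ Real.exp (h₁ * T) ≤ E.card) :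
    ∃ μ : Measure X, IsProbabilityMeasure μ ∧ MeasurePreserving F μ μ ∧
      ∀ (n : ℕ) (P : X → Fin n), Measurable P → (∀ x y, P x = P y → dist x y < ε₁) →
        (∀ (L : ℕ) (b : Fin L → Fin n), μ (frontier {x | ∀ s : Fin L, P (F^[s] x) = b s}) = 0) →
        ∀ L : ℕ, h₁ * L ≤ ent (law μ F P L) := by
  choose E hE hcard using fun T : ℕ => hsep (T + 1) (Nat.succ_pos T)
  have hne : ∀ T, (E T).Nonempty := by
    intro T
    rw [← Finset.card_pos]
    have h1 := (Real.exp_pos (h₁ * ((T + 1 : ℕ) : ℝ))).trans_le (hcard T)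
    exact_mod_cast h1
  have hpr : ∀ T, IsProbabilityMeasure (emp (E T) F (T + 1)) := fun T =>
    emp_prob (hne T) F (Nat.succ_pos T)
  let μs : ℕ → ProbabilityMeasure X := fun T => ⟨emp (E T) F (T + 1), hpr T⟩
  let U : Ultrafilter ℕ := hyperfilter ℕ
  have hU : (U : Filter ℕ) ≤ atTop := by
    rw [← Nat.cofinite_eq_atTop]
    exact hyperfilter_le_cofinite
  obtain ⟨μ, -, hμ⟩ := isCompact_univ.ultrafilter_le_nhds (U.map μs) (by simp)
  have hlim : Tendsto μs U (𝓝 μ) := hμ
  have hint : ∀ f : X →ᵇ ℝ, Tendsto (fun T => ∫ x, f x ∂(emp (E T) F (T + 1))) U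
      (𝓝 (∫ x, f x ∂(μ : Measure X))) :=
    fun f => (ProbabilityMeasure.tendsto_iff_forall_integral_tendsto.1 hlim) f
  have hTinf : Tendsto (fun T : ℕ => ((T : ℝ) + 1)) U atTop :=
    (tendsto_atTop_add_const_right _ _ tendsto_natCast_atTop_atTop).mono_left hU
  refine ⟨μ, inferInstance, ⟨hFc.measurable, ?_⟩, ?_⟩
  · have : IsProbabilityMeasure ((μ : Measure X).map F) :=
      Measure.isProbabilityMeasure_map hFc.measurable.aemeasurable
    refine ext_of_forall_integral_eq_of_IsFiniteMeasure fun f => ?_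
    rw [integral_map hFc.measurable.aemeasurable f.continuous.aestronglyMeasurable]
    have h1 := (hint (f.compContinuous ⟨F, hFc⟩)).sub (hint f)
    have h2 : Tendsto (fun T => ∫ x, f.compContinuous ⟨F, hFc⟩ x ∂(emp (E T) F (T + 1)) -
        ∫ x, f x ∂(emp (E T) F (T + 1))) U (𝓝 0) := by
      refine squeeze_zero_norm (a := fun T : ℕ => 2 * ‖f‖ / ((T : ℝ) + 1)) (fun T => ?_) ?_
      · rw [Real.norm_eq_abs]
        have := emp_inv (hne T) F hFc (Nat.succ_pos T) f
        push_cast at this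
        exact this
      · exact Tendsto.div_atTop tendsto_const_nhds hTinf
    have h3 := tendsto_nhds_unique h1 h2
    have h4 : ∫ x, f.compContinuous ⟨F, hFc⟩ x ∂(μ : Measure X) = ∫ x, f (F x) ∂(μ : Measure X) :=
      rfl
    rw [h4] at h3
    exact sub_eq_zero.1 h3
  · intro n P hP hPd hfr L
    rcases Nat.eq_zero_or_pos L with rfl | hL
    · have h1 : ent (law (μ : Measure X) F P 0) = 0 := by
        unfold ent
        refine Finset.sum_eq_zero fun w _ => ?_
        have h2 : law (μ : Measure X) F P 0 w = 1 := by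
          unfold law
          have h3 : {x | ∀ s : Fin 0, P (F^[s] x) = w s} = univ := by
            ext x
            simp only [mem_ofPred_eq, mem_univ, iff_true]
            exact fun s => s.elim0
          rw [h3, measure_univ, ENNReal.toReal_one]
        rw [h2, Real.negMulLog_one]
      rw [h1]
      simp
    have hlaw : ∀ w, Tendsto (fun T => law (emp (E T) F (T + 1)) F P L w) U
        (𝓝 (law (μ : Measure X) F P L w)) := by
      intro w
      have h1 := ProbabilityMeasure.tendsto_measure_of_null_frontier_of_tendsto' hlim (hfr L w)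
      exact (ENNReal.tendsto_toReal (measure_ne_top _ _)).comp h1
    have hent : Tendsto (fun T => ent (law (emp (E T) F (T + 1)) F P L)) U
        (𝓝 (ent (law (μ : Measure X) F P L))) := by
      unfold ent
      exact tendsto_finsetSum _ fun w _ =>
        (Real.continuous_negMulLog.tendsto _).comp (hlaw w)
    have hrest : Tendsto (fun T : ℕ => 2 * (L : ℝ) ^ 2 * Real.log n / ((T : ℝ) + 1)) U (𝓝 0) :=
      Tendsto.div_atTop tendsto_const_nhds hTinf
    have hsum := hent.add hrest
    rw [add_zero] at hsum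
    refine ge_of_tendsto hsum ?_
    have hev : ∀ᶠ T : ℕ in U, L ≤ T := hU (eventually_ge_atTop L)
    filter_upwards [hev] with T hT
    have hinj : ∀ x ∈ E T, ∀ y ∈ E T, blk P F 0 (T + 1) x = blk P F 0 (T + 1) y → x = y := by
      intro x hx y hy hxy
      by_contra hne
      obtain ⟨t, ht, hd⟩ := hE T x hx y hy hne
      have h1 := congrFun hxy ⟨t, ht⟩
      unfold blk at h1
      simp only [zero_add] at h1
      exact absurd (hPd _ _ h1) (not_lt.2 hd)
    have h1 := avg_ge P F (hne T) hL (T := T + 1) (by omega) hinj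
    rw [← law_emp (E T) F hFc (T + 1) P hP L] at h1
    have h2 : h₁ * ((T + 1 : ℕ) : ℝ) ≤ Real.log (E T).card := by
      rw [Real.le_log_iff_exp_le (by exact_mod_cast (hne T).card_pos)]
      exact hcard T
    have hT0 : (0 : ℝ) < (T : ℝ) + 1 := by positivity
    have h3 : (L : ℝ) * (h₁ * ((T + 1 : ℕ) : ℝ)) ≤ L * Real.log (E T).card :=
      mul_le_mul_of_nonneg_left h2 (Nat.cast_nonneg _)
    have h4 := h3.trans h1
    push_cast at h4
    rw [← sub_nonneg] at h4 ⊢
    have h5 : ent (law (emp (E T) F (T + 1)) F P L) + 2 * (L : ℝ) ^ 2 * Real.log n /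
        ((T : ℝ) + 1) - h₁ * L = (((T : ℝ) + 1) * ent (law (emp (E T) F (T + 1)) F P L) +
        2 * (L : ℝ) ^ 2 * Real.log n - L * (h₁ * ((T : ℝ) + 1))) / ((T : ℝ) + 1) := by
      field_simp
    rw [h5]
    exact div_nonneg h4 hT0.le

end Pool.Agent.Helper79.Weiss
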