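import Pool.Agent.Helper38.Weiss.Api
import Pool.Agent.Helper88.Weiss.Ent

/-!
# Entropy of the names of the points of a finite set
-/

set_option autoImplicit false

open Set Filter Topology MeasureTheory Pool.Agent.Helper38.Weiss

namespace Pool.Agent.Helper79.Weiss

open Pool.Agent.Helper88.Weiss

variable {X : Type*}

open Classical in
/-- distribution of a label on a finite set -/
noncomputable def dst {β : Type*} (E : Finset X) (f : X → β) (b : β) : ℝ :=
  ((E.filter (fun x => f x = b)).card : ℝ) / E.card

theorem dst_nonneg {β : Type*} (E : Finset X) (f : X → β) (b : β) : 0 ≤ dst E f b := by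
  unfold dst
  positivity

theorem sum_dst {β : Type*} [Fintype β] {E : Finset X} (hE : E.Nonempty) (f : X → β) :
    ∑ b, dst E f b = 1 := by
  classical
  unfold dst
  rw [← Finset.sum_div, div_eq_one_iff_eq (by exact_mod_cast hE.card_pos.ne')]
  rw [Finset.card_eq_sum_card_fiberwise (f := f) (t := Finset.univ) (fun x _ => Finset.mem_univ _)]
  push_cast
  rfl

theorem dst_fst {β γ : Type*} [Fintype γ] (E : Finset X) (f : X → β) (g : X → γ) (b : β) :
    ∑ c, dst E (fun x => (f x, g x)) (b, c) = dst E f b := by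
  classical
  unfold dst
  rw [← Finset.sum_div]
  congr 1
  rw [Finset.card_eq_sum_card_fiberwise (s := E.filter (fun x => f x = b)) (f := g)
    (t := Finset.univ) (fun x _ => Finset.mem_univ _)]
  push_cast
  refine Finset.sum_congr rfl fun c _ => ?_
  congr 2
  ext x
  simp only [Finset.mem_filter, Prod.mk.injEq]
  tauto

theorem dst_snd {β γ : Type*} [Fintype β] (E : Finset X) (f : X → β) (g : X → γ) (c : γ) :
    ∑ b, dst E (fun x => (f x, g x)) (b, c) = dst E g c := by
  classical
  unfold dst
  rw [← Finset.sum_div]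
  congr 1
  rw [Finset.card_eq_sum_card_fiberwise (s := E.filter (fun x => g x = c)) (f := f)
    (t := Finset.univ) (fun x _ => Finset.mem_univ _)]
  push_cast
  refine Finset.sum_congr rfl fun b _ => ?_
  congr 2
  ext x
  simp only [Finset.mem_filter, Prod.mk.injEq]
  tauto

theorem H_prod_le {β γ : Type*} [Fintype β] [Fintype γ] {E : Finset X} (hE : E.Nonempty)
    (f : X → β) (g : X → γ) :
    ent (dst E (fun x => (f x, g x))) ≤ ent (dst E f) + ent (dst E g) := by
  have h := ent_prod_le (dst E (fun x => (f x, g x))) (dst_nonneg _ _) (sum_dst hE _)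
  simp only [dst_fst, dst_snd] at h
  exact h

theorem H_equiv {β γ : Type*} [Fintype β] [Fintype γ] (E : Finset X) (f : X → β) (e : β ≃ γ) :
    ent (dst E (fun x => e (f x))) = ent (dst E f) := by
  classical
  unfold ent
  rw [← Equiv.sum_comp e]
  refine Finset.sum_congr rfl fun b _ => ?_
  congr 1
  unfold dst
  simp only [EmbeddingLike.apply_eq_iff_eq]

theorem H_inj {β : Type*} [Fintype β] {E : Finset X} (f : X → β)
    (hf : ∀ x ∈ E, ∀ y ∈ E, f x = f y → x = y) : Real.log E.card = ent (dst E f) := by
  classical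
  rcases E.eq_empty_or_nonempty with rfl | hE
  · simp [ent, dst]
  have hc : (E.card : ℝ) ≠ 0 := by exact_mod_cast hE.card_pos.ne'
  unfold ent
  have h1 : ∑ b, Real.negMulLog (dst E f b) =
      ∑ b ∈ E.image f, Real.negMulLog (dst E f b) := by
    refine (Finset.sum_subset (Finset.subset_univ _) fun b _ hb => ?_).symm
    have h2 : E.filter (fun x => f x = b) = ∅ := by
      rw [Finset.filter_eq_empty_iff]
      intro x hx hxb
      exact hb (Finset.mem_image.2 ⟨x, hx, hxb⟩)
    unfold dst
    rw [h2]
    simp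
  have h2 : ∀ b ∈ E.image f, Real.negMulLog (dst E f b) = Real.log E.card / E.card := by
    intro b hb
    obtain ⟨x, hx, rfl⟩ := Finset.mem_image.1 hb
    have h3 : E.filter (fun y => f y = f x) = {x} := by
      ext y
      simp only [Finset.mem_filter, Finset.mem_singleton]
      constructor
      · rintro ⟨hy, hyx⟩
        exact hf y hy x hx hyx
      · rintro rfl
        exact ⟨hx, rfl⟩
    unfold dst
    rw [h3, Finset.card_singleton, Nat.cast_one, Real.negMulLog, one_div, Real.log_inv]
    field_simp
  rw [h1, Finset.sum_congr rfl h2, Finset.sum_const, Finset.card_image_of_injOn (fun x hx y hy h =>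
    hf x hx y hy h), nsmul_eq_mul]
  field_simp

/-- the name on `[a, a+m)` -/
def blk {n : ℕ} (P : X → Fin n) (F : X → X) (a m : ℕ) (x : X) : Fin m → Fin n :=
  fun s => P (F^[a + s] x)

/-- entropy of the names on `[a, a+m)` -/
noncomputable def hb {n : ℕ} (P : X → Fin n) (F : X → X) (E : Finset X) (a m : ℕ) : ℝ :=
  ent (dst E (blk P F a m))

variable {n : ℕ} (P : X → Fin n) (F : X → X) {E : Finset X}

theorem hb_add (hE : E.Nonempty) (a m m' : ℕ) :
    hb P F E a (m + m') ≤ hb P F E a m + hb P F E (a + m) m' := by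
  have h1 : blk P F a (m + m') = fun x =>
      (Fin.appendEquiv (α := Fin n) m m') (blk P F a m x, blk P F (a + m) m' x) := by
    funext x s
    change _ = Fin.append _ _ s
    refine Fin.addCases (fun i => ?_) (fun i => ?_) s
    · rw [Fin.append_left]
      rfl
    · rw [Fin.append_right]
      change P (F^[a + (m + i)] x) = P (F^[a + m + i] x)
      rw [add_assoc]
  unfold hb
  rw [h1, H_equiv]
  exact H_prod_le hE _ _

theorem hb_nonneg (hE : E.Nonempty) (a m : ℕ) : 0 ≤ hb P F E a m :=
  ent_nonneg _ (dst_nonneg _ _) (sum_dst hE _).le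

theorem hb_le (hE : E.Nonempty) (a m : ℕ) : hb P F E a m ≤ m * Real.log n := by
  have h := ent_le_log_card (dst E (blk P F a m)) (dst_nonneg _ _) (sum_dst hE _)
  rw [Fintype.card_fun, Fintype.card_fin, Fintype.card_fin, Nat.cast_pow, Real.log_pow] at h
  exact h

theorem log_nonneg' : 0 ≤ Real.log n := Real.log_natCast_nonneg n

/-- Cutting into blocks of length `L`. -/
theorem hb_blocks (hE : E.Nonempty) {L : ℕ} (hL : 0 < L) (m : ℕ) : ∀ a : ℕ,
    hb P F E a m ≤ ∑ t ∈ (Finset.Ico a (a + m)).filter (fun t => t % L = a % L ∧ t + L ≤ a + m),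
      hb P F E t L + L * Real.log n := by
  induction m using Nat.strong_induction_on with
  | _ m ih =>
    intro a
    by_cases hm : m < L
    · have h1 := hb_le P F hE a m
      have h2 : (m : ℝ) * Real.log n ≤ L * Real.log n :=
        mul_le_mul_of_nonneg_right (by exact_mod_cast hm.le) log_nonneg'
      have h3 : 0 ≤ ∑ t ∈ (Finset.Ico a (a + m)).filter
          (fun t => t % L = a % L ∧ t + L ≤ a + m), hb P F E t L :=
        Finset.sum_nonneg fun t _ => hb_nonneg P F hE t L
      linarith
    · push Not at hm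
      have h1 := hb_add P F hE a L (m - L)
      rw [Nat.add_sub_cancel' hm] at h1
      have h2 := ih (m - L) (by omega) (a + L)
      have h3 : a + L + (m - L) = a + m := by omega
      rw [h3] at h2
      have h4 : hb P F E a L + ∑ t ∈ (Finset.Ico (a + L) (a + m)).filter
          (fun t => t % L = (a + L) % L ∧ t + L ≤ a + m), hb P F E t L ≤
          ∑ t ∈ (Finset.Ico a (a + m)).filter
          (fun t => t % L = a % L ∧ t + L ≤ a + m), hb P F E t L := by
        have h5 : insert a ((Finset.Ico (a + L) (a + m)).filter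
            (fun t => t % L = (a + L) % L ∧ t + L ≤ a + m)) ⊆
            (Finset.Ico a (a + m)).filter (fun t => t % L = a % L ∧ t + L ≤ a + m) := by
          intro t ht
          rw [Finset.mem_insert] at ht
          rw [Finset.mem_filter, Finset.mem_Ico]
          rcases ht with rfl | ht
          · exact ⟨⟨le_rfl, by omega⟩, rfl, by omega⟩
          · rw [Finset.mem_filter, Finset.mem_Ico, Nat.add_mod_right] at ht
            exact ⟨⟨by omega, ht.1.2⟩, ht.2.1, ht.2.2⟩
        have h6 : a ∉ (Finset.Ico (a + L) (a + m)).filter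
            (fun t => t % L = (a + L) % L ∧ t + L ≤ a + m) := by
          rw [Finset.mem_filter, Finset.mem_Ico]
          omega
        rw [← Finset.sum_insert (f := fun t => hb P F E t L) h6]
        exact Finset.sum_le_sum_of_subset_of_nonneg h5 fun t _ _ => hb_nonneg P F hE t L
      linarith

/-- The entropy of the names on `[0,T)` against the sum of the entropies of the names on
`[t,t+L)`. -/
theorem L_mul_hb_le (hE : E.Nonempty) {L : ℕ} (hL : 0 < L) {T : ℕ} (hT : L ≤ T) :
    L * hb P F E 0 T ≤ ∑ t ∈ Finset.range T, hb P F E t L + 2 * L ^ 2 * Real.log n := by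
  have h1 : ∀ j ∈ Finset.range L, hb P F E 0 T ≤
      ∑ t ∈ (Finset.range T).filter (fun t => t % L = j), hb P F E t L + 2 * L * Real.log n := by
    intro j hj
    rw [Finset.mem_range] at hj
    have h2 := hb_add P F hE 0 j (T - j)
    rw [Nat.add_sub_cancel' (by omega), zero_add] at h2
    have h3 := hb_blocks P F hE hL (T - j) j
    have h4 := hb_le P F hE 0 j
    have h5 : (j : ℝ) * Real.log n ≤ L * Real.log n :=
      mul_le_mul_of_nonneg_right (by exact_mod_cast hj.le) log_nonneg'
    have h6 : ∑ t ∈ (Finset.Ico j (j + (T - j))).filter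
        (fun t => t % L = j % L ∧ t + L ≤ j + (T - j)), hb P F E t L ≤
        ∑ t ∈ (Finset.range T).filter (fun t => t % L = j), hb P F E t L := by
      refine Finset.sum_le_sum_of_subset_of_nonneg ?_ fun t _ _ => hb_nonneg P F hE t L
      intro t ht
      rw [Finset.mem_filter, Finset.mem_Ico, Nat.mod_eq_of_lt hj] at ht
      rw [Finset.mem_filter, Finset.mem_range]
      exact ⟨by omega, ht.2.1⟩
    linarith
  have h2 := Finset.sum_le_sum h1
  rw [Finset.sum_const, Finset.card_range, nsmul_eq_mul, Finset.sum_add_distrib, Finset.sum_const,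
    Finset.card_range, nsmul_eq_mul] at h2
  have h3 : ∑ j ∈ Finset.range L, ∑ t ∈ (Finset.range T).filter (fun t => t % L = j),
      hb P F E t L = ∑ t ∈ Finset.range T, hb P F E t L :=
    Finset.sum_fiberwise_of_maps_to (fun t _ => Finset.mem_range.2 (Nat.mod_lt _ hL)) _
  rw [h3] at h2
  calc _ ≤ _ := h2
    _ = _ := by ring

/-- the averaged distribution of the names -/
theorem avg_ge (hE : E.Nonempty) {L : ℕ} (hL : 0 < L) {T : ℕ} (hT : L ≤ T)
    (hinj : ∀ x ∈ E, ∀ y ∈ E, blk P F 0 T x = blk P F 0 T y → x = y) :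
    L * Real.log E.card ≤ T * ent (fun w => (1 / (T : ℝ)) * ∑ t ∈ Finset.range T,
      dst E (blk P F t L) w) + 2 * L ^ 2 * Real.log n := by
  have hT0 : (0 : ℝ) < T := by exact_mod_cast (by omega : 0 < T)
  have h1 := L_mul_hb_le P F hE hL hT
  have h2 : hb P F E 0 T = Real.log E.card := (H_inj _ hinj).symm
  rw [h2] at h1
  have h3 := ent_concave (β := Fin L → Fin n) (κ := Fin T) (fun _ => 1 / (T : ℝ))
    (fun _ => by positivity) (by
      rw [Finset.sum_const, Finset.card_univ, Fintype.card_fin, nsmul_eq_mul]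
      field_simp) (fun t => dst E (blk P F t L)) (fun t z => dst_nonneg _ _ _)
  have h4 : (fun z => ∑ j : Fin T, 1 / (T : ℝ) * dst E (blk P F j L) z) =
      fun w => (1 / (T : ℝ)) * ∑ t ∈ Finset.range T, dst E (blk P F t L) w := by
    funext w
    rw [← Finset.mul_sum, Finset.sum_range]
  rw [h4, ← Finset.mul_sum] at h3
  have h5 : ∑ t ∈ Finset.range T, hb P F E t L = ∑ j : Fin T, ent (dst E (blk P F j L)) := by
    rw [Finset.sum_range]
    rfl
  rw [h5] at h1
  have h6 : ∑ j : Fin T, ent (dst E (blk P F j L)) ≤ T * ent (fun w => (1 / (T : ℝ)) *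
      ∑ t ∈ Finset.range T, dst E (blk P F t L) w) := by
    rw [one_div, inv_mul_le_iff₀ hT0] at h3
    rw [one_div]
    exact h3
  linarith

end Pool.Agent.Helper79.Weiss
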